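import Mathlib

/-!
MP_54b1e5_al (helper17): homomorphisms from `ℤ ^ I` to cotorsion-free groups, that is groups `H` such that every homomorphism from
`ℤ ^ ℕ` to `H` which vanishes on the unit vectors is `0`: the kernel is closed under pointwise limits of sequences.
-/

set_option autoImplicit false

namespace Pool.Agent.W_54b1e5_r17

open Set Function

/-- no nonzero element of `H` is infinitely divisible by `p` -/
def Sep (p : ℕ) (H : Type*) [AddCommGroup H] : Prop :=
  ∀ x : H, (∀ n : ℕ, ∃ y : H, p ^ n • y = x) → x = 0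

section A

variable {H : Type*} [AddCommGroup H]

lemma null_of_dvd {p : ℕ} (hH : Sep p H) (ψ : (ℕ → ℤ) →+ H)
    (h0 : ∀ n, ψ (Pi.single n 1) = 0) (x : ℕ → ℤ) (hx : ∀ n, (p : ℤ) ^ n ∣ x n) : ψ x = 0 := by
  apply hH
  intro m
  refine ⟨ψ (fun n => if n < m then 0 else x n / (p : ℤ) ^ m), ?_⟩
  have hfin : x = (∑ n ∈ Finset.range m, x n • (Pi.single n (1 : ℤ) : ℕ → ℤ)) +
      (p ^ m) • (fun n => if n < m then 0 else x n / (p : ℤ) ^ m) := by
    funext k
    have h1 : (∑ n ∈ Finset.range m, x n • (Pi.single n (1 : ℤ) : ℕ → ℤ)) k =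
        if k < m then x k else 0 := by
      rw [Finset.sum_apply]
      by_cases hk : k < m
      · rw [Finset.sum_eq_single k]
        · simp [hk]
        · intro b _ hb
          simp [Ne.symm hb]
        · intro h
          exact absurd (Finset.mem_range.2 hk) h
      · rw [if_neg hk]
        refine Finset.sum_eq_zero fun b hb => ?_
        have : k ≠ b := fun h => hk (h ▸ Finset.mem_range.1 hb)
        simp [this]
    rw [Pi.add_apply, h1, Pi.smul_apply]
    by_cases hk : k < m
    · simp [hk]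
    · have hd : (p : ℤ) ^ m ∣ x k := (pow_dvd_pow _ (not_lt.1 hk)).trans (hx k)
      rw [if_neg hk, if_neg hk, zero_add, nsmul_eq_mul]
      push_cast
      rw [Int.mul_ediv_cancel' hd]
  have h2 : ψ x = (p ^ m) • ψ (fun n => if n < m then 0 else x n / (p : ℤ) ^ m) := by
    conv_lhs => rw [hfin]
    rw [map_add, map_nsmul, map_sum]
    have : ∑ n ∈ Finset.range m, ψ (x n • (Pi.single n (1 : ℤ) : ℕ → ℤ)) = 0 := by
      refine Finset.sum_eq_zero fun n _ => ?_
      rw [map_zsmul, h0, smul_zero]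
    rw [this, zero_add]
  exact h2.symm

/-- every homomorphism from `ℤ ^ ℕ` to `H` which vanishes on the unit vectors is `0` (`H` is cotorsion-free) -/
def CF (H : Type*) [AddCommGroup H] : Prop :=
  ∀ ψ : (ℕ → ℤ) →+ H, (∀ n, ψ (Pi.single n 1) = 0) → ψ = 0

lemma CF.null (hH : CF H) (ψ : (ℕ → ℤ) →+ H) (h0 : ∀ n, ψ (Pi.single n 1) = 0) (x : ℕ → ℤ) : ψ x = 0 := by
  rw [hH ψ h0]
  rfl

lemma cf_of_sep (h2 : Sep 2 H) (h3 : Sep 3 H) : CF H := by
  intro ψ h0
  refine DFunLike.ext _ _ fun x => ?_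
  show ψ x = 0
  have hb : ∀ n : ℕ, ∃ u v : ℤ, 2 ^ n * u + 3 ^ n * v = 1 := fun n => by
    have h23 : IsCoprime (2 : ℤ) 3 := ⟨-1, 1, by norm_num⟩
    obtain ⟨a, b, h⟩ := (h23.pow (m := n) (n := n))
    exact ⟨a, b, by linarith⟩
  choose u v huv using hb
  have hx : x = (fun n => 2 ^ n * (u n * x n)) + (fun n => 3 ^ n * (v n * x n)) := by
    funext n
    simp only [Pi.add_apply]
    linear_combination (-x n) * huv n
  rw [hx, map_add, null_of_dvd h2 ψ h0 _ (fun n => ⟨_, by push_cast; rfl⟩),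
    null_of_dvd h3 ψ h0 _ (fun n => ⟨_, by push_cast; rfl⟩), add_zero]

variable {J : Type*}

/-- the combinations of a point finite sequence of functions -/
noncomputable def combo (w : ℕ → J → ℤ) (hw : ∀ j, {n | w n j ≠ 0}.Finite) : (ℕ → ℤ) →+ (J → ℤ) where
  toFun c j := ∑ n ∈ (hw j).toFinset, c n * w n j
  map_zero' := by funext j; simp
  map_add' c d := by funext j; simp [add_mul, Finset.sum_add_distrib]

lemma sum_null (hH : CF H) (φ : (J → ℤ) →+ H) (w : ℕ → J → ℤ)
    (hw : ∀ j, {n | w n j ≠ 0}.Finite) (h0 : ∀ n, φ (w n) = 0) (g : J → ℤ)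
    (hg : ∀ j, g j = ∑ n ∈ (hw j).toFinset, w n j) : φ g = 0 := by
  have h := hH.null (φ.comp (combo w hw)) (fun n => ?_) (fun _ => 1)
  · have : combo w hw (fun _ => 1) = g := by
      funext j
      rw [hg j]
      show ∑ n ∈ (hw j).toFinset, 1 * w n j = _
      simp
    rw [AddMonoidHom.comp_apply, this] at h
    exact h
  · have : combo w hw (Pi.single n 1) = w n := by
      funext j
      show ∑ m ∈ (hw j).toFinset, (Pi.single n 1 : ℕ → ℤ) m * w m j = w n j
      rw [Finset.sum_eq_single n]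
      · simp
      · intro b _ hb
        simp [hb]
      · intro hn
        have : w n j = 0 := by
          by_contra hne
          exact hn ((hw j).mem_toFinset.2 hne)
        simp [this]
    rw [AddMonoidHom.comp_apply, this]
    exact h0 n

/-- the fibres of a homomorphism are closed under pointwise limits of sequences -/
lemma closed (hH : CF H) (φ : (J → ℤ) →+ H) (f : ℕ → J → ℤ) (g : J → ℤ) (d : H)
    (hf : ∀ n, φ (f n) = d) (hlim : ∀ j, ∃ N, ∀ n ≥ N, f n j = g j) : φ g = d := by
  have hsub : ∀ j, ∃ N, {n | (f (n + 1) - f n) j ≠ 0} ⊆ ↑(Finset.range N) ∧ f N j = g j := by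
    intro j
    obtain ⟨N, hN⟩ := hlim j
    refine ⟨N, fun n hn => ?_, hN N le_rfl⟩
    by_contra h
    have hn' : N ≤ n := by simpa using h
    apply hn
    rw [Pi.sub_apply, hN n hn', hN (n + 1) (by omega), sub_self]
  have hw : ∀ j, {n | (f (n + 1) - f n) j ≠ 0}.Finite := fun j => by
    obtain ⟨N, hN, _⟩ := hsub j
    exact (Finset.finite_toSet _).subset hN
  have h := sum_null hH φ (fun n => f (n + 1) - f n) hw
    (fun n => by rw [map_sub, hf, hf, sub_self]) (g - f 0) (fun j => ?_)
  · rw [map_sub, hf 0, sub_eq_zero] at h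
    exact h
  · obtain ⟨N, hN, hNj⟩ := hsub j
    have : ∑ n ∈ (hw j).toFinset, (f (n + 1) - f n) j = ∑ n ∈ Finset.range N, (f (n + 1) j - f n j) := by
      refine Finset.sum_subset (fun n hn => ?_) (fun n _ hn => ?_)
      · exact Finset.mem_coe.1 (hN ((hw j).mem_toFinset.1 hn))
      · by_contra hne
        exact hn ((hw j).mem_toFinset.2 hne)
    rw [this, Finset.sum_range_sub (fun n => f n j), hNj, Pi.sub_apply]

lemma exists_closed_countable (S : Finset J → Set J) (hS : ∀ F, (S F).Countable) (j : J) :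
    ∃ C : Set J, C.Countable ∧ j ∈ C ∧ ∀ F : Finset J, ↑F ⊆ C → S F ⊆ C := by
  classical
  let T : ℕ → Set J := fun n => Nat.rec {j} (fun _ C => C ∪ ⋃ F ∈ {F : Finset J | ↑F ⊆ C}, S F) n
  have hsucc : ∀ n, T (n + 1) = T n ∪ ⋃ F ∈ {F : Finset J | ↑F ⊆ T n}, S F := fun n => rfl
  have hT : ∀ n, (T n).Countable := by
    intro n
    induction n with
    | zero => exact countable_singleton _
    | succ n ih =>
      rw [hsucc]
      refine ih.union (Set.Countable.biUnion ?_ (fun F _ => hS F))
      have h1 := Set.countable_ofPred_finite_subset ih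
      refine (h1.preimage (f := fun F : Finset J => (F : Set J)) Finset.coe_injective).mono ?_
      intro F hF
      exact ⟨F.finite_toSet, hF⟩
  have hmono : Monotone T := monotone_nat_of_le_succ fun n => by
    rw [hsucc]; exact subset_union_left
  refine ⟨⋃ n, T n, countable_iUnion hT, mem_iUnion.2 ⟨0, rfl⟩, fun F hF => ?_⟩
  have hex : ∃ n, ↑F ⊆ T n := by
    induction F using Finset.induction_on with
    | empty => exact ⟨0, by simp⟩
    | insert a F _ ih =>
      obtain ⟨n, hn⟩ := ih (fun x hx => hF (by simp only [Finset.coe_insert]; exact mem_insert_of_mem _ hx))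
      obtain ⟨m, hm⟩ := mem_iUnion.1 (hF (by simp : a ∈ (↑(insert a F) : Set J)))
      refine ⟨max n m, ?_⟩
      intro x hx
      rcases Finset.mem_insert.1 (Finset.mem_coe.1 hx) with rfl | hx
      · exact hmono (le_max_right _ _) hm
      · exact hmono (le_max_left _ _) (hn hx)
  obtain ⟨n, hn⟩ := hex
  refine Subset.trans ?_ (subset_iUnion T (n + 1))
  rw [hsucc]
  intro x hx
  exact Or.inr (mem_iUnion₂.2 ⟨F, hn, hx⟩)

end A

end Pool.Agent.W_54b1e5_r17
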