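import Pool.Agent.W_54b1e5_r17.Pow17A

/-!
MP_54b1e5_al (helper17): a homomorphism `φ` on `ℤ ^ I` (`I` well-ordered, uncountable, with countable initial segments) into a
cotorsion-free group which does not vanish on uncountably many unit vectors is
injective on the functions of countable support with support in some uncountable set `S`.
-/

set_option autoImplicit false

namespace Pool.Agent.W_54b1e5_r17

open Set Function

section A

variable {H : Type*} [AddCommGroup H]

/-- a cotorsion-free group has no elements of prime order -/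
lemma CF.no_prime (hH : CF H) (p : ℕ) (hp : p.Prime) (x : H) (hx : p • x = 0) : x = 0 := by
  classical
  have : Fact p.Prime := ⟨hp⟩
  by_contra hne
  let W : Submodule (ZMod p) (ℕ → ZMod p) := Submodule.span (ZMod p) (range fun n : ℕ => (Pi.single n 1 : ℕ → ZMod p))
  have hW : W < ⊤ := by
    rw [lt_top_iff_ne_top]
    intro htop
    have h1 : (fun _ => 1 : ℕ → ZMod p) ∈ W := by rw [htop]; trivial
    have h2 : ∀ y ∈ W, (support y).Finite := by
      intro y hy
      refine Submodule.span_induction ?_ ?_ ?_ ?_ hy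
      · rintro _ ⟨n, rfl⟩
        refine (finite_singleton n).subset fun k hk => ?_
        by_contra hkn
        exact hk (Pi.single_eq_of_ne hkn _)
      · simp
      · intro a b _ _ ha hb
        exact (ha.union hb).subset (support_add a b)
      · intro c a _ ha
        refine ha.subset fun k hk => ?_
        by_contra h
        apply hk
        show c * a k = 0
        rw [notMem_support.1 h, mul_zero]
    have h3 := h2 _ h1
    have h4 : support (fun _ => 1 : ℕ → ZMod p) = Set.univ := by
      ext k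
      simp
    rw [h4] at h3
    exact Set.infinite_univ h3
  obtain ⟨f, hf0, hf⟩ := Submodule.exists_le_ker_of_lt_top W hW
  -- the homomorphism `ZMod p → H`, `1 ↦ x`
  let u : ZMod p →+ H := ZMod.lift p ⟨zmultiplesHom H x, by simpa using hx⟩
  have hu1 : ∀ k : ℤ, u (k : ZMod p) = k • x := by
    intro k
    show ZMod.lift p _ (k : ZMod p) = _
    rw [ZMod.lift_coe]
    rfl
  have huinj : ∀ z : ZMod p, u z = 0 → z = 0 := by
    intro z hz
    by_contra hz0
    apply hne
    have h1 : u (z⁻¹ * z) = 0 := by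
      obtain ⟨k, hk⟩ := ZMod.intCast_surjective (z⁻¹)
      rw [← hk, ← zsmul_eq_mul, map_zsmul, hz, smul_zero]
    rw [inv_mul_cancel₀ hz0] at h1
    have h2 := hu1 1
    rw [Int.cast_one, h1, one_smul] at h2
    exact h2.symm
  let r : (ℕ → ℤ) →+ (ℕ → ZMod p) :=
    { toFun := fun c n => (c n : ZMod p)
      map_zero' := by funext n; simp
      map_add' := fun a b => by funext n; simp }
  have hr : Surjective r := by
    intro y
    have : ∀ n, ∃ k : ℤ, (k : ZMod p) = y n := fun n => ZMod.intCast_surjective (y n)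
    choose c hc using this
    exact ⟨c, funext hc⟩
  have hψ := hH ((u.comp f.toAddMonoidHom).comp r) (fun n => by
    have h1 : r (Pi.single n 1) = Pi.single n 1 := by
      funext k
      show ((Pi.single n 1 : ℕ → ℤ) k : ZMod p) = _
      by_cases hk : k = n
      · subst hk; simp
      · rw [Pi.single_eq_of_ne hk, Pi.single_eq_of_ne hk, Int.cast_zero]
    show u (f (r (Pi.single n 1))) = 0
    rw [h1, hf (Submodule.subset_span ⟨n, rfl⟩), map_zero])
  apply hf0
  ext y
  obtain ⟨c, rfl⟩ := hr y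
  have := DFunLike.congr_fun hψ c
  exact huinj _ this

lemma CF.tf_nat (hH : CF H) (m : ℕ) (hm : m ≠ 0) (x : H) (hx : m • x = 0) : x = 0 := by
  induction m using Nat.recOnMul generalizing x with
  | zero => exact absurd rfl hm
  | one => simpa using hx
  | prime p hp => exact hH.no_prime p hp x hx
  | mul a b iha ihb =>
    rw [mul_smul] at hx
    exact ihb (fun h => hm (by rw [h, mul_zero])) x (iha (fun h => hm (by rw [h, zero_mul])) _ hx)

lemma CF.tf_int (hH : CF H) (m : ℤ) (hm : m ≠ 0) (x : H) (hx : m • x = 0) : x = 0 := by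
  apply hH.tf_nat m.natAbs (Int.natAbs_ne_zero.2 hm)
  rcases Int.natAbs_eq m with h | h
  · rw [← natCast_zsmul, ← h]
    exact hx
  · rw [← natCast_zsmul]
    have : (m.natAbs : ℤ) = -m := by omega
    rw [this, neg_smul, hx, neg_zero]

variable {J : Type}

/-- if `φ e_j ≠ 0` there is a countable set `F` such that `φ` does not vanish on the functions of countable support which are not `0`
at `j` and vanish on `F` outside `j` -/
lemma exists_ctbl [DecidableEq J] (hH : CF H) (φ : (J → ℤ) →+ H) (j : J)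
    (hj : φ (Pi.single j 1 : J → ℤ) ≠ 0) :
    ∃ F : Set J, F.Countable ∧ ∀ x : J → ℤ, (support x).Countable → x j ≠ 0 →
      (∀ i ∈ F, i ≠ j → x i = 0) → φ x ≠ 0 := by
  have hm : ∀ m : ℤ, ∃ F : Finset J, m ≠ 0 → ∀ x : J → ℤ, (support x).Countable → x j = m →
      (∀ i ∈ F, i ≠ j → x i = 0) → φ x ≠ 0 := by
    intro m
    by_contra hcon
    push Not at hcon
    have hm0 : m ≠ 0 := (hcon ∅).1
    have hcon' := fun F => (hcon F).2
    choose x hxc hxj hxF hx0 using hcon'
    obtain ⟨C, hCc, hjC, hC⟩ := exists_closed_countable (fun F => support (x F)) hxc j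
    obtain ⟨e, he⟩ := hCc.exists_eq_range ⟨j, hjC⟩
    have hlim : φ (Pi.single j m : J → ℤ) = 0 := by
      refine closed hH φ (fun n => x ((Finset.range n).image e)) _ 0 (fun n => hx0 _) (fun i => ?_)
      by_cases hij : i = j
      · subst hij
        exact ⟨0, fun n _ => by rw [hxj, Pi.single_eq_same]⟩
      · by_cases hiC : i ∈ C
        · have hiC' := hiC
          rw [he] at hiC'
          obtain ⟨k, rfl⟩ := hiC'
          refine ⟨k + 1, fun n hn => ?_⟩
          rw [Pi.single_eq_of_ne hij]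
          exact hxF _ _ (Finset.mem_image_of_mem _ (Finset.mem_range.2 (by omega))) hij
        · refine ⟨0, fun n _ => ?_⟩
          rw [Pi.single_eq_of_ne hij]
          by_contra hne
          refine hiC (hC ((Finset.range n).image e) ?_ hne)
          intro y hy
          obtain ⟨k, _, rfl⟩ := Finset.mem_image.1 (Finset.mem_coe.1 hy)
          rw [he]
          exact mem_range_self k
    apply hj
    apply hH.tf_int m hm0
    rw [← map_zsmul, ← Pi.single_smul, smul_eq_mul, mul_one]
    exact hlim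
  choose F hF using hm
  refine ⟨⋃ m, (F m : Set J), countable_iUnion fun m => (F m).countable_toSet, fun x hx hxj hxF => ?_⟩
  exact hF (x j) hxj x hx rfl fun i hi hij => hxF i (mem_iUnion.2 ⟨x j, hi⟩) hij

end A

section B

variable {I : Type} [LinearOrder I]

lemma exists_thin' (hI : ∀ a : I, (Iic a).Countable) (T : Set I) (hT : ¬ T.Countable) (F : I → Set I)
    (hF : ∀ j, (F j).Countable) :
    ∃ S ⊆ T, ¬ S.Countable ∧ ∀ j ∈ S, ∀ i ∈ S, j < i → i ∉ F j := by
  obtain ⟨S, hS⟩ := zorn_subset {S : Set I | S ⊆ T ∧ ∀ j ∈ S, ∀ i ∈ S, j < i → i ∉ F j} (by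
    intro c hc hch
    refine ⟨⋃₀ c, ⟨sUnion_subset fun s hs => (hc hs).1, ?_⟩, fun s hs => subset_sUnion_of_mem hs⟩
    rintro j ⟨s, hs, hjs⟩ i ⟨t, ht, hit⟩ hji
    rcases hch.total hs ht with h | h
    · exact (hc ht).2 j (h hjs) i hit hji
    · exact (hc hs).2 j hjs i (h hit) hji)
  refine ⟨S, hS.prop.1, fun hSc => ?_, hS.prop.2⟩
  -- a new element above everything
  have hU : (⋃ j ∈ S, (Iic j ∪ ⋃ i ∈ F j, Iic i)).Countable :=
    hSc.biUnion fun j _ => (hI j).union ((hF j).biUnion fun i _ => hI i)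
  have hne : (T \ ⋃ j ∈ S, (Iic j ∪ ⋃ i ∈ F j, Iic i)).Nonempty := by
    by_contra h
    rw [not_nonempty_iff_eq_empty, sdiff_eq_empty] at h
    exact hT (hU.mono h)
  obtain ⟨k, hkT, hk⟩ := hne
  have hk1 : ∀ j ∈ S, j < k := fun j hj => by
    by_contra h
    exact hk (mem_iUnion₂.2 ⟨j, hj, Or.inl (not_lt.1 h)⟩)
  have hk2 : ∀ j ∈ S, k ∉ F j := fun j hj h =>
    hk (mem_iUnion₂.2 ⟨j, hj, Or.inr (mem_iUnion₂.2 ⟨k, h, le_rfl⟩)⟩)
  have hmem : insert k S ∈ {S : Set I | S ⊆ T ∧ ∀ j ∈ S, ∀ i ∈ S, j < i → i ∉ F j} := by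
    refine ⟨insert_subset hkT hS.prop.1, ?_⟩
    rintro j (rfl | hj) i (rfl | hi) hji
    · exact absurd hji (lt_irrefl _)
    · exact absurd hji (not_lt.2 (hk1 i hi).le)
    · exact hk2 j hj
    · exact hS.prop.2 j hj i hi hji
  have := hS.eq_of_subset hmem (subset_insert k S)
  exact absurd (hk1 k (this ▸ mem_insert k S)) (lt_irrefl _)

variable {H : Type*} [AddCommGroup H]

/-- `φ` is injective on the functions of countable support with support in `S` -/
def Inj (φ : (I → ℤ) →+ H) (S : Set I) : Prop :=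
  ∀ x : I → ℤ, (support x).Countable → support x ⊆ S → φ x = 0 → x = 0

lemma exists_inj [WellFoundedLT I] (hI : ∀ a : I, (Iic a).Countable) (hH : CF H)
    (φ : (I → ℤ) →+ H) (hT : ¬ {j : I | φ (Pi.single j 1 : I → ℤ) ≠ 0}.Countable) :
    ∃ S : Set I, ¬ S.Countable ∧ Inj φ S := by
  have hF : ∀ j : I, ∃ F : Set I, F.Countable ∧ (φ (Pi.single j 1 : I → ℤ) ≠ 0 → ∀ x : I → ℤ,
      (support x).Countable → x j ≠ 0 → (∀ i ∈ F, i ≠ j → x i = 0) → φ x ≠ 0) := by
    intro j
    by_cases hj : φ (Pi.single j 1 : I → ℤ) ≠ 0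
    · obtain ⟨F, hFc, hF⟩ := exists_ctbl hH φ j hj
      exact ⟨F, hFc, fun _ => hF⟩
    · exact ⟨∅, countable_empty, fun h => absurd h hj⟩
  choose F hFc hF using hF
  obtain ⟨S, hST, hSc, hS⟩ := exists_thin' hI _ hT F hFc
  refine ⟨S, hSc, ?_⟩
  intro x hx hxS hφ
  by_contra hne
  have hD : (support x).Nonempty := support_nonempty_iff.2 hne
  have hmin := wellFounded_lt.min_mem _ hD
  set j := wellFounded_lt.min _ hD with hj
  have hlt : ∀ i < j, x i = 0 := fun i hi => by
    by_contra h
    exact wellFounded_lt.not_lt_min _ h hi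
  refine hF j (hST (hxS hmin)) x hx hmin ?_ hφ
  intro i hiF hij
  rcases lt_or_gt_of_ne hij with hlt' | hgt
  · exact hlt i hlt'
  · by_contra h
    exact hS j (hxS hmin) i (hxS h) hgt hiF

end B

end Pool.Agent.W_54b1e5_r17
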