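import Pool.Agent.W_54b1e5_r17.Pow17B

/-!
MP_54b1e5_al (helper17): almost disjoint families of more than `ℵ₁` uncountable subsets of a set of size `ℵ₁`; closing off;
an uncountable set `X` such that `φ` is injective on all functions with support in `X`.
-/

set_option autoImplicit false

namespace Pool.Agent.W_54b1e5_r17

open Set Function Cardinal

section A

variable {I : Type} [LinearOrder I]

/-- more than `ℵ₁` almost disjoint uncountable subsets of an uncountable set `S` -/
lemma exists_ad (hI : ∀ a : I, (Iic a).Countable) (hcard : #I = ℵ₁) (S : Set I) (hS : ¬ S.Countable) :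
    ∃ (B : Type) (X : B → Set I), ℵ₁ < #B ∧ (∀ b b', b ≠ b' → (X b ∩ X b').Countable) ∧
      (∀ b, X b ⊆ S) ∧ ∀ b, ¬ (X b).Countable := by
  classical
  have hunc : ¬ (Set.univ : Set I).Countable := by
    rw [← le_aleph0_iff_set_countable, mk_univ, hcard, not_le]
    exact aleph0_lt_aleph_one
  obtain ⟨𝓗, h𝓗⟩ := zorn_subset {𝓗 : Set (I → I) | ∀ f ∈ 𝓗, ∀ g ∈ 𝓗, f ≠ g → {β | f β = g β}.Countable} (by
    intro c hc hch
    refine ⟨⋃₀ c, ?_, fun s hs => subset_sUnion_of_mem hs⟩
    rintro f ⟨s, hs, hfs⟩ g ⟨t, ht, hgt⟩ hfg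
    rcases hch.total hs ht with h | h
    · exact (hc ht) f (h hfs) g hgt hfg
    · exact (hc hs) f hfs g (h hgt) hfg)
  have hbig : ℵ₁ < #𝓗 := by
    by_contra hle
    rw [not_lt, ← hcard] at hle
    obtain ⟨j⟩ := (le_def _ _).1 hle
    -- enumerate `𝓗` by `I`
    have hne : Nonempty I := by
      by_contra h
      rw [not_nonempty_iff] at h
      exact hunc (to_countable _)
    let h : I → I → I := fun α => if hα : ∃ f : 𝓗, j f = α then (hα.choose : I → I) else fun _ => α
    have hh : ∀ f ∈ 𝓗, ∃ α, h α = f := by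
      intro f hf
      refine ⟨j ⟨f, hf⟩, ?_⟩
      have hα : ∃ g : 𝓗, j g = j ⟨f, hf⟩ := ⟨_, rfl⟩
      show (if hα : ∃ g : 𝓗, j g = j ⟨f, hf⟩ then (hα.choose : I → I) else _) = f
      rw [dif_pos hα]
      have := j.injective hα.choose_spec
      rw [this]
    have hg : ∀ β : I, ∃ y : I, ∀ α ≤ β, y ≠ h α β := by
      intro β
      by_contra hcon
      push Not at hcon
      apply hunc
      refine ((hI β).image fun α => h α β).mono fun y _ => ?_
      obtain ⟨α, hα, hy⟩ := hcon y
      exact ⟨α, hα, hy.symm⟩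
    choose g hg using hg
    have hgad : ∀ f ∈ 𝓗, {β | f β = g β}.Countable := by
      intro f hf
      obtain ⟨α, rfl⟩ := hh f hf
      refine (hI α).mono fun β hβ => ?_
      by_contra hlt
      exact hg β α (not_le.1 hlt).le hβ.symm
    have hmem : insert g 𝓗 ∈ {𝓗 : Set (I → I) | ∀ f ∈ 𝓗, ∀ g ∈ 𝓗, f ≠ g → {β | f β = g β}.Countable} := by
      rintro f (rfl | hf) f' (rfl | hf') hne'
      · exact absurd rfl hne'
      · refine (hgad f' hf').mono fun β hβ => ?_
        exact Eq.symm hβ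
      · exact hgad f hf
      · exact h𝓗.prop f hf f' hf' hne'
    have heq := h𝓗.eq_of_subset hmem (subset_insert g 𝓗)
    have hg𝓗 : g ∈ 𝓗 := heq ▸ mem_insert g 𝓗
    apply hunc
    exact (hgad g hg𝓗).mono fun β _ => rfl
  -- graphs, transported into `S`
  have hInf : ℵ₀ ≤ #I := by rw [hcard]; exact aleph0_lt_aleph_one.le
  have hS1 : #I ≤ #S := by
    rw [hcard, ← succ_aleph0, Order.succ_le_iff]
    by_contra h
    exact hS (le_aleph0_iff_set_countable.1 (not_lt.1 h))
  obtain ⟨ι⟩ : Nonempty (I × I ↪ S) := by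
    rw [← le_def, mk_prod, lift_id, mul_eq_self hInf]
    exact hS1
  refine ⟨𝓗, fun f => range fun β : I => (ι (β, (f : I → I) β) : I), hbig, ?_, ?_, ?_⟩
  · intro f g hfg
    have hne' : (f : I → I) ≠ g := fun h => hfg (Subtype.ext h)
    refine ((h𝓗.prop f f.2 g g.2 hne').image fun β => (ι (β, (f : I → I) β) : I)).mono ?_
    rintro x ⟨⟨β, rfl⟩, ⟨β', hβ'⟩⟩
    have h1 : (β', (g : I → I) β') = (β, (f : I → I) β) := ι.injective (Subtype.ext hβ')
    have h2 : β' = β := congrArg Prod.fst h1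
    subst h2
    exact ⟨β', (congrArg Prod.snd h1).symm, rfl⟩
  · rintro f _ ⟨β, rfl⟩
    exact (ι _).2
  · intro f hc
    apply hunc
    have hinj : Injective fun β : I => (ι (β, (f : I → I) β) : I) := fun a b hab =>
      congrArg Prod.fst (ι.injective (Subtype.ext hab))
    refine (hc.preimage hinj).mono ?_
    intro β _
    exact ⟨β, rfl⟩

end A

/-- closing off a set of size at most `ℵ₁` -/
lemma exists_closed_le {B : Type} (pick : Finset B → Set B) (hpick : ∀ E, #(pick E) ≤ ℵ₁) :
    ∃ M : Set B, #M ≤ ℵ₁ ∧ ∀ E : Finset B, ↑E ⊆ M → pick E ⊆ M := by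
  classical
  let T : ℕ → Set B := fun n => Nat.rec ∅ (fun _ C => C ∪ ⋃ E ∈ {E : Finset B | ↑E ⊆ C}, pick E) n
  have hsucc : ∀ n, T (n + 1) = T n ∪ ⋃ E ∈ {E : Finset B | ↑E ⊆ T n}, pick E := fun n => rfl
  have hw : (ℵ₀ : Cardinal.{0}) ≤ ℵ₁ := aleph0_lt_aleph_one.le
  have hfs : ∀ s : Set B, #s ≤ ℵ₁ → #{E : Finset B | ↑E ⊆ s} ≤ ℵ₁ := by
    intro s hs
    have hsub : {E : Finset B | ↑E ⊆ s} ⊆ range fun F : Finset s => F.map (Embedding.subtype _) := by
      intro E hE
      refine ⟨E.subtype (· ∈ s), Finset.subtype_map_of_mem fun x hx => hE (Finset.mem_coe.2 hx)⟩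
    refine (mk_le_mk_of_subset hsub).trans (mk_range_le.trans ?_)
    rcases finite_or_infinite s with hfin | hinf
    · exact (lt_aleph0_of_finite _).le.trans hw
    · rw [mk_finset_of_infinite]
      exact hs
  have hT : ∀ n, #(↥(T n)) ≤ ℵ₁ := by
    intro n
    induction n with
    | zero =>
      show #(∅ : Set B) ≤ ℵ₁
      rw [Cardinal.mk_eq_zero]
      exact zero_le
    | succ n ih =>
      rw [hsucc]
      refine (mk_union_le _ _).trans ?_
      refine (add_le_add ih ?_).trans (add_eq_self hw).le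
      refine (mk_biUnion_le _ _).trans ?_
      refine (mul_le_mul' (hfs _ ih) (ciSup_le' fun E => hpick _)).trans (mul_eq_self hw).le
  have hmono : Monotone T := monotone_nat_of_le_succ fun n => by
    rw [hsucc]; exact subset_union_left
  refine ⟨⋃ n, T n, ?_, fun E hE => ?_⟩
  · refine (mk_iUnion_le _).trans ?_
    rw [mk_nat]
    refine (mul_le_mul' hw (ciSup_le' hT)).trans (mul_eq_self hw).le
  · have hex : ∃ n, ↑E ⊆ T n := by
      induction E using Finset.induction_on with
      | empty => exact ⟨0, by simp⟩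
      | insert a F _ ih =>
        obtain ⟨n, hn⟩ := ih (fun x hx => hE (by simp only [Finset.coe_insert]; exact mem_insert_of_mem _ hx))
        obtain ⟨m, hm⟩ := mem_iUnion.1 (hE (by simp : a ∈ (↑(insert a F) : Set B)))
        refine ⟨max n m, ?_⟩
        intro x hx
        rcases Finset.mem_insert.1 (Finset.mem_coe.1 hx) with rfl | hx
        · exact hmono (le_max_right _ _) hm
        · exact hmono (le_max_left _ _) (hn hx)
    obtain ⟨n, hn⟩ := hex
    refine Subset.trans ?_ (subset_iUnion T (n + 1))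
    rw [hsucc]
    intro x hx
    exact Or.inr (mem_iUnion₂.2 ⟨E, hn, hx⟩)

end Pool.Agent.W_54b1e5_r17
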