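import Pool.Agent.W_54b1e5_r17.Pow17C

/-!
MP_54b1e5_al (helper17): homomorphisms from `ℤ ^ I`, `#I = ℵ₁`, into a cotorsion-free group
vanish on the functions supported off some countable set, or their image contains a copy of `ℤ ^ I`.
-/

set_option autoImplicit false

namespace Pool.Agent.W_54b1e5_r17

open Set Function Cardinal

section G

variable {I : Type} [LinearOrder I] {H : Type*} [AddCommGroup H]

/-- among more than `ℵ₁` almost disjoint subsets of `S` there is one on which `θ` is injective -/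
lemma exists_good (hI : ∀ a : I, (Iic a).Countable) (hcard : #I = ℵ₁) (hH : CF H)
    (θ : (I → ℤ) →+ H) (S : Set I) (hS : Inj θ S) (B : Type) (hB : ℵ₁ < #B) (X : B → Set I)
    (hX : ∀ b b', b ≠ b' → (X b ∩ X b').Countable) (hXS : ∀ b, X b ⊆ S) :
    ∃ b, ∀ c : I → ℤ, support c ⊆ X b → θ c = 0 → c = 0 := by
  classical
  by_contra hcon
  push Not at hcon
  choose c hcX hc0 hcne using hcon
  have hunc : ¬ (Set.univ : Set I).Countable := by
    rw [← le_aleph0_iff_set_countable, mk_univ, hcard, not_le]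
    exact aleph0_lt_aleph_one
  have hInf : ℵ₀ ≤ #I := by rw [hcard]; exact aleph0_lt_aleph_one.le
  have hneI : Nonempty I := by
    by_contra h
    rw [not_nonempty_iff] at h
    exact hunc (to_countable _)
  have hneB : Nonempty B := by
    by_contra h
    rw [not_nonempty_iff] at h
    rw [Cardinal.mk_eq_zero] at hB
    exact absurd hB (not_lt.2 zero_le)
  let Q : Finset B → I → Finset (I × ℤ) → B → Prop := fun E α P b =>
    (∀ y ∈ E, b ≠ y ∧ X b ∩ X y ⊆ Iio α) ∧ ∀ q ∈ P, c b q.1 = q.2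
  let pk : Finset B → I → Finset (I × ℤ) → B := fun E α P =>
    if h : ∃ b, Q E α P b then h.choose else Classical.arbitrary B
  have hpk : ∀ E α P, (∃ b, Q E α P b) → Q E α P (pk E α P) := by
    intro E α P h
    show Q E α P (if h : ∃ b, Q E α P b then h.choose else Classical.arbitrary B)
    rw [dif_pos h]
    exact h.choose_spec
  have hsize : ∀ E, #(range fun q : I × Finset (I × ℤ) => pk E q.1 q.2) ≤ ℵ₁ := by
    intro E
    refine mk_range_le.trans ?_
    have hinf : Infinite (I × ℤ) := by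
      have : Infinite ℤ := inferInstance
      exact Prod.infinite_of_right
    rw [mk_prod, lift_id, lift_id, mk_finset_of_infinite, mk_prod, lift_id, lift_id, mk_int, hcard]
    rw [mul_aleph0_eq aleph0_lt_aleph_one.le, mul_eq_self aleph0_lt_aleph_one.le]
  obtain ⟨M, hM, hMc⟩ := exists_closed_le
    (fun E => range fun q : I × Finset (I × ℤ) => pk E q.1 q.2) hsize
  obtain ⟨b₀, hb₀⟩ : ∃ b, b ∉ M := by
    by_contra h
    push Not at h
    have : M = Set.univ := eq_univ_of_forall h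
    rw [this, mk_univ] at hM
    exact absurd (hB.trans_le hM) (lt_irrefl _)
  obtain ⟨ξ, hξ⟩ : ∃ ξ, c b₀ ξ ≠ 0 := by
    by_contra h
    push Not at h
    exact hcne b₀ (funext h)
  have he : ∀ α : I, ∃ e : ℕ → I, Iio α ⊆ range e := fun α =>
    Set.countable_iff_exists_subset_range.1 ((hI α).mono Iio_subset_Iic_self)
  choose e he using he
  have hbd : ∀ C : Set I, C.Countable → ∃ α, C ⊆ Iio α := by
    intro C hC
    have hU : (⋃ j ∈ C, Iic j).Countable := hC.biUnion fun j _ => hI j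
    have hne : ∃ k, k ∉ ⋃ j ∈ C, Iic j := by
      by_contra h
      push Not at h
      exact hunc (hU.mono fun k _ => h k)
    obtain ⟨k, hk⟩ := hne
    refine ⟨k, fun j hj => ?_⟩
    by_contra h
    exact hk (mem_iUnion₂.2 ⟨j, hj, not_lt.1 h⟩)
  obtain ⟨f, hfP, hfr⟩ := exists_seq_of_forall_finset_exists
    (fun y : B × I × ℕ => y.1 ∈ M ∧ ξ < y.2.1)
    (fun x y => X y.1 ∩ X x.1 ⊆ Iio y.2.1 ∧
      (∀ k ≤ y.2.2, c y.1 (e x.2.1 k) = c b₀ (e x.2.1 k)) ∧ x.2.2 < y.2.2) (by
    intro s hs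
    have hC : ({ξ} ∪ ⋃ x ∈ s, X b₀ ∩ X x.1 : Set I).Countable := by
      refine (countable_singleton ξ).union (s.countable_toSet.biUnion fun x hx => ?_)
      refine hX b₀ x.1 fun h => hb₀ ?_
      rw [h]
      exact (hs x hx).1
    obtain ⟨α, hα⟩ := hbd _ hC
    let E : Finset B := s.image fun x => x.1
    let ν : ℕ := (s.sup fun x => x.2.2) + 1
    let P : Finset (I × ℤ) := (s ×ˢ Finset.range (ν + 1)).image fun q =>
      (e q.1.2.1 q.2, c b₀ (e q.1.2.1 q.2))
    have hEM : (↑E : Set B) ⊆ M := by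
      intro y hy
      obtain ⟨x, hx, rfl⟩ := Finset.mem_image.1 (Finset.mem_coe.1 hy)
      exact (hs x hx).1
    have hQ : ∃ b, Q E α P b := by
      refine ⟨b₀, fun y hy => ?_, fun q hq => ?_⟩
      · obtain ⟨x, hx, rfl⟩ := Finset.mem_image.1 hy
        refine ⟨fun h => hb₀ (h ▸ (hs x hx).1), fun i hi => hα (Or.inr ?_)⟩
        exact mem_iUnion₂.2 ⟨x, hx, hi⟩
      · obtain ⟨z, _, rfl⟩ := Finset.mem_image.1 hq
        rfl
    have hQb := hpk E α P hQ
    refine ⟨(pk E α P, α, ν), ⟨hMc E hEM ⟨(α, P), rfl⟩, hα (Or.inl rfl)⟩, fun x hx => ⟨?_, ?_, ?_⟩⟩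
    · exact (hQb.1 x.1 (Finset.mem_image_of_mem _ hx)).2
    · intro k hk
      exact hQb.2 (e x.2.1 k, c b₀ (e x.2.1 k)) (Finset.mem_image.2 ⟨(x, k),
        Finset.mem_product.2 ⟨hx, Finset.mem_range.2 (Nat.lt_succ_of_le hk)⟩, rfl⟩)
    · exact Nat.lt_succ_of_le (Finset.le_sup (f := fun x : B × I × ℕ => x.2.2) hx))
  have hν : ∀ n, n ≤ (f n).2.2 := by
    have hmono : StrictMono fun n => (f n).2.2 := fun m n hmn => (hfr m n hmn).2.2
    exact fun n => hmono.le_apply
  let g : I → ℤ := fun i => if ∃ n, i < (f n).2.1 then c b₀ i else 0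
  have hg0 : θ g = 0 := by
    refine closed hH θ (fun n => c (f n).1) g 0 (fun n => hc0 _) (fun i => ?_)
    by_cases hi : ∃ n, i < (f n).2.1
    · obtain ⟨n, hn⟩ := hi
      obtain ⟨k, hk⟩ := he _ hn
      refine ⟨n + 1 + k, fun m hm => ?_⟩
      show c (f m).1 i = if ∃ n, i < (f n).2.1 then c b₀ i else 0
      rw [if_pos ⟨n, hn⟩, ← hk]
      exact (hfr n m (by omega)).2.1 k (by have := hν m; omega)
    · have hgi : g i = 0 := if_neg hi
      by_cases hex : ∃ m, i ∈ X (f m).1
      · obtain ⟨m, hm⟩ := hex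
        refine ⟨m + 1, fun n hn => ?_⟩
        rw [hgi]
        by_contra hne
        exact hi ⟨n, (hfr m n (by omega)).1 ⟨hcX _ hne, hm⟩⟩
      · refine ⟨0, fun n _ => ?_⟩
        rw [hgi]
        by_contra hne
        exact hex ⟨n, hcX _ hne⟩
  have hgs : support g ⊆ support (c b₀) := by
    intro i hi hci
    apply hi
    show (if ∃ n, i < (f n).2.1 then c b₀ i else 0) = 0
    rw [hci, ite_self]
  have hgc : (support g).Countable := by
    have hU : (⋃ n, Iio (f n).2.1).Countable := countable_iUnion fun n => (hI _).mono Iio_subset_Iic_self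
    refine hU.mono fun i hi => ?_
    by_contra h
    apply hi
    refine if_neg fun hex => h ?_
    obtain ⟨n, hn⟩ := hex
    exact mem_iUnion.2 ⟨n, hn⟩
  have hgz := hS g hgc ((hgs.trans (hcX b₀)).trans (hXS b₀)) hg0
  have : g ξ = c b₀ ξ := if_pos ⟨0, (hfP 0).2⟩
  rw [hgz] at this
  exact hξ this.symm

end G

end Pool.Agent.W_54b1e5_r17
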