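import Pool.Agent.W_54b1e5_r17.Pow17D

/-!
MP_54b1e5_al (helper17): the dichotomy for homomorphisms from `ℤ ^ I`, `#I = ℵ₁`, and the direct summands of
`ℤ ^ I / (countable support)`.
-/

set_option autoImplicit false

namespace Pool.Agent.W_54b1e5_r17

open Set Function Cardinal

section U

variable {I : Type} {H : Type*} [AddCommGroup H]

lemma iUnion_null' (hH : CF H) (Φ : (I → ℤ) →+ H) (A : ℕ → Set I)
    (hA : ∀ n, ∀ f : I → ℤ, support f ⊆ A n → Φ f = 0) (f : I → ℤ) (hf : support f ⊆ ⋃ n, A n) : Φ f = 0 := by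
  classical
  let w : ℕ → I → ℤ := fun n i => if i ∈ A n ∧ ∀ m < n, i ∉ A m then f i else 0
  have hw0 : ∀ i n, w n i ≠ 0 → (i ∈ A n ∧ ∀ m < n, i ∉ A m) := fun i n h => by
    by_contra hn
    exact h (if_neg hn)
  have hw1 : ∀ i m n, w m i ≠ 0 → w n i ≠ 0 → m = n := by
    intro i m n hm hn
    rcases lt_trichotomy m n with h | h | h
    · exact absurd (hw0 i m hm).1 ((hw0 i n hn).2 m h)
    · exact h
    · exact absurd (hw0 i n hn).1 ((hw0 i m hm).2 n h)
  have hw : ∀ j, {n | w n j ≠ 0}.Finite := fun j =>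
    Set.Subsingleton.finite (fun a ha b hb => hw1 j a b ha hb)
  refine sum_null hH Φ w hw (fun n => hA n _ fun i hi => (hw0 i n hi).1) f (fun j => ?_)
  by_cases hj : f j = 0
  · rw [hj]
    symm
    refine Finset.sum_eq_zero fun n _ => ?_
    show (if j ∈ A n ∧ ∀ m < n, j ∉ A m then f j else 0) = 0
    rw [hj, ite_self]
  · have hex : ∃ n, j ∈ A n := mem_iUnion.1 (hf hj)
    have hval : w (Nat.find hex) j = f j := if_pos ⟨Nat.find_spec hex, fun m hm => Nat.find_min hex hm⟩
    rw [Finset.sum_eq_single (Nat.find hex), hval]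
    · intro b hb hne
      exact absurd (hw1 j b _ ((hw j).mem_toFinset.1 hb) (by rw [hval]; exact hj)) hne
    · intro hn
      exfalso
      apply hn
      rw [(hw j).mem_toFinset]
      show w (Nat.find hex) j ≠ 0
      rw [hval]
      exact hj

variable [LinearOrder I]

/-- Ulam: uncountably many disjoint sets on which `Φ` does not vanish -/
lemma exists_ulam' (hI : ∀ a : I, (Iic a).Countable) (hunc : ¬ (univ : Set I).Countable) (hH : CF H) (Φ : (I → ℤ) →+ H) (hne : ∀ α : I, ∃ f : I → ℤ, support f ⊆ Ioi α ∧ Φ f ≠ 0) :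
    ∃ comb : (I → ℤ) →+ (I → ℤ), ¬ {j | Φ (comb (Pi.single j 1 : I → ℤ)) ≠ 0}.Countable := by
  classical
  have hg : ∀ β : I, ∃ g : I → ℕ, InjOn g (Iio β) := fun β =>
    Set.countable_iff_exists_injOn.1 ((hI β).mono Iio_subset_Iic_self)
  choose g hg using hg
  let A : ℕ → I → Set I := fun n α => {β | α < β ∧ g β α = n}
  let pos : ℕ → I → Prop := fun n α => ∃ f : I → ℤ, support f ⊆ A n α ∧ Φ f ≠ 0
  have hpos : ∀ α, ∃ n, pos n α := by
    intro α
    by_contra hcon
    have hnull : ∀ n, ∀ f : I → ℤ, support f ⊆ A n α → Φ f = 0 := by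
      intro n f hf
      by_contra hne'
      exact hcon ⟨n, f, hf, hne'⟩
    obtain ⟨f, hfs, hf⟩ := hne α
    apply hf
    refine iUnion_null' hH Φ (fun n => A n α) hnull _ fun i hi => ?_
    exact mem_iUnion.2 ⟨g i α, hfs hi, rfl⟩
  obtain ⟨n, hn⟩ : ∃ n, ¬ {α | pos n α}.Countable := by
    by_contra hcon
    push Not at hcon
    apply hunc
    refine (countable_iUnion hcon).mono fun α _ => ?_
    obtain ⟨n, hn⟩ := hpos α
    exact mem_iUnion.2 ⟨n, hn⟩
  have hy : ∀ α, ∃ y : I → ℤ, support y ⊆ A n α ∧ (pos n α → Φ y ≠ 0) := by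
    intro α
    by_cases h : pos n α
    · obtain ⟨f, hf, hf'⟩ := h
      exact ⟨f, hf, fun _ => hf'⟩
    · exact ⟨0, by simp, fun h' => absurd h' h⟩
  choose y hyA hyΦ using hy
  have huniq : ∀ β, {α | y α β ≠ 0}.Subsingleton := by
    intro β α hα α' hα'
    obtain ⟨h1, h2⟩ := hyA α hα
    obtain ⟨h1', h2'⟩ := hyA α' hα'
    exact hg β h1 h1' (h2.trans h2'.symm)
  have hfin : ∀ (c : I → ℤ) β, (support fun α => c α * y α β).Finite := by
    intro c β
    refine (huniq β).finite.subset fun α hα => ?_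
    intro h
    apply hα
    show c α * y α β = 0
    rw [h, mul_zero]
  let comb : (I → ℤ) →+ (I → ℤ) :=
    { toFun := fun c β => ∑ᶠ α, c α * y α β
      map_zero' := by funext β; simp
      map_add' := fun c d => by
        funext β
        show ∑ᶠ α, (c + d) α * y α β = (∑ᶠ α, c α * y α β) + ∑ᶠ α, d α * y α β
        rw [← finsum_add_distrib (hfin c β) (hfin d β)]
        exact finsum_congr fun α => by rw [Pi.add_apply, add_mul] }
  have hsingle : ∀ α, comb (Pi.single α 1) = y α := by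
    intro α
    funext β
    show ∑ᶠ α', (Pi.single α 1 : I → ℤ) α' * y α' β = y α β
    rw [finsum_eq_single _ α]
    · simp
    · intro x hx
      simp [hx]
  refine ⟨comb, fun hc => hn (hc.mono fun α hα => ?_)⟩
  show Φ (comb (Pi.single α 1)) ≠ 0
  rw [hsingle]
  exact hyΦ α hα

end U

/-- **The dichotomy.** A homomorphism `φ` from `ℤ ^ I`, `#I = ℵ₁`, to a cotorsion-free group vanishes on the functions which are `0` on some countable set, or it is injective on a copy of `ℤ ^ I`. -/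
theorem dichotomy (I : Type) (hI : #I = ℵ₁) (H : Type*) [AddCommGroup H] (hH : CF H)
    (φ : (I → ℤ) →+ H) :
    (∃ C : Set I, C.Countable ∧ ∀ f : I → ℤ, (∀ i ∈ C, f i = 0) → φ f = 0) ∨
      ∃ E : (I → ℤ) →+ (I → ℤ), Injective (φ.comp E) := by
  classical
  obtain ⟨_, _, hr⟩ := exists_ord_eq_type_lt I
  have hIic : ∀ a : I, (Iic a).Countable := by
    intro a
    have h1 := mk_Iio_lt a hr
    rw [hI, ← succ_aleph0, Order.lt_succ_iff, le_aleph0_iff_set_countable] at h1
    refine (h1.union (countable_singleton a)).mono fun x hx => ?_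
    rcases (show x ≤ a from hx).lt_or_eq with h | h
    · exact Or.inl h
    · exact Or.inr h
  have hunc : ¬ (Set.univ : Set I).Countable := by
    rw [← le_aleph0_iff_set_countable, mk_univ, hI, not_le]
    exact aleph0_lt_aleph_one
  by_cases hC : ∃ C : Set I, C.Countable ∧ ∀ f : I → ℤ, (∀ i ∈ C, f i = 0) → φ f = 0
  · exact Or.inl hC
  right
  push Not at hC
  have hne : ∀ α : I, ∃ f : I → ℤ, support f ⊆ Ioi α ∧ φ f ≠ 0 := by
    intro α
    obtain ⟨f, hf, hf'⟩ := hC (Iic α) (hIic α)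
    refine ⟨f, fun i hi => ?_, hf'⟩
    by_contra h
    exact hi (hf i (not_lt.1 h))
  obtain ⟨comb, hT⟩ := exists_ulam' hIic hunc hH φ hne
  obtain ⟨S, hSc, hS⟩ := exists_inj hIic hH (φ.comp comb) hT
  obtain ⟨B, X, hB, hX, hXS, hXc⟩ := exists_ad hIic hI S hSc
  obtain ⟨b, hb⟩ := exists_good hIic hI hH (φ.comp comb) S hS B hB X hX hXS
  have h1 : #I ≤ #(X b) := by
    rw [hI, ← succ_aleph0, Order.succ_le_iff]
    by_contra h
    exact hXc b (le_aleph0_iff_set_countable.1 (not_lt.1 h))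
  obtain ⟨ι⟩ : Nonempty (I ↪ X b) := (le_def _ _).1 h1
  let j : I → I := fun i => (ι i : I)
  have hj : Injective j := fun a b hab => ι.injective (Subtype.ext hab)
  let E : (I → ℤ) →+ (I → ℤ) := Function.ExtendByZero.hom ℤ j
  have hE : ∀ (c : I → ℤ) (i : I), E c (j i) = c i := fun c i => hj.extend_apply c 0 i
  have hE0 : ∀ (c : I → ℤ) (i : I), i ∉ range j → E c i = 0 := fun c i hi =>
    Function.extend_apply' c (0 : I → ℤ) i (fun ⟨k, hk⟩ => hi ⟨k, hk⟩)
  refine ⟨comb.comp E, ?_⟩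
  rw [injective_iff_map_eq_zero]
  intro c hc
  have h0 := hb (E c) (fun i hi => ?_) hc
  · funext i
    rw [← hE c i, h0]
    rfl
  · by_contra hni
    apply hi
    apply hE0
    rintro ⟨k, rfl⟩
    exact hni (ι k).2

/-- the subgroup of the functions of countable support -/
def cs (I : Type) : AddSubgroup (I → ℤ) where
  carrier := {f | (support f).Countable}
  zero_mem' := by simp
  add_mem' := fun {f g} hf hg => (hf.union hg).mono (support_add f g)
  neg_mem' := fun {f} hf => by
    simp only [Set.mem_ofPred_eq] at hf ⊢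
    rwa [support_neg]

lemma closure_eq (I : Type) : AddSubgroup.closure {f : I → ℤ | (support f).Countable} = cs I :=
  AddSubgroup.closure_eq (cs I)

/-- the group of all integer valued functions on `I` modulo the functions of countable support -/
abbrev Gr (I : Type) : Type := (I → ℤ) ⧸ AddSubgroup.closure {f : I → ℤ | (support f).Countable}

lemma mk_zero_iff {I : Type} (f : I → ℤ) :
    (QuotientAddGroup.mk f : Gr I) = 0 ↔ (support f).Countable := by
  rw [QuotientAddGroup.eq_zero_iff, closure_eq]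
  exact Iff.rfl

lemma mk_fun {I : Type} (hI : #I = ℵ₁) : #(I → ℤ) = 2 ^ ℵ₁ := by
  rw [← power_def, mk_int, hI]
  exact power_eq_two_power aleph0_lt_aleph_one.le (natCast_lt_aleph0 (n := 2)).le aleph0_lt_aleph_one.le

/-- a nonzero homomorphism from `Gr I` has a copy of `ℤ ^ I` in its image -/
theorem copy_of_hom (I : Type) (hI : #I = ℵ₁) (H : Type*) [AddCommGroup H] (hH : CF H)
    (φ : Gr I →+ H) (hφ : φ ≠ 0) : ∃ E : (I → ℤ) →+ Gr I, Injective (φ.comp E) := by
  classical
  rcases dichotomy I hI H hH (φ.comp (QuotientAddGroup.mk' _)) with ⟨C, hC, h⟩ | ⟨E, hE⟩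
  · exfalso
    apply hφ
    refine AddMonoidHom.ext fun x => ?_
    obtain ⟨f, rfl⟩ := QuotientAddGroup.mk_surjective x
    have h1 : (QuotientAddGroup.mk f : Gr I) = QuotientAddGroup.mk (fun i => if i ∈ C then 0 else f i) := by
      rw [← sub_eq_zero]
      show (QuotientAddGroup.mk (f - fun i => if i ∈ C then 0 else f i) : Gr I) = 0
      rw [mk_zero_iff]
      refine hC.mono fun i hi => ?_
      by_contra hn
      apply hi
      rw [Pi.sub_apply, if_neg hn, sub_self]
    rw [h1]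
    exact h _ fun i hi => if_pos hi
  · exact ⟨(QuotientAddGroup.mk' _).comp E, hE⟩

lemma sep_Gr (I : Type) (p : ℕ) (hp : 1 < p) : Sep p (Gr I) := by
  intro x hx
  obtain ⟨f, rfl⟩ := QuotientAddGroup.mk_surjective x
  have h1 : ∀ n : ℕ, ∃ g : I → ℤ, (support (p ^ n • g - f)).Countable := by
    intro n
    obtain ⟨y, hy⟩ := hx n
    obtain ⟨g, rfl⟩ := QuotientAddGroup.mk_surjective y
    refine ⟨g, (mk_zero_iff _).1 ?_⟩
    show (QuotientAddGroup.mk' _ (p ^ n • g - f) : Gr I) = 0
    rw [map_sub, map_nsmul]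
    exact sub_eq_zero.2 hy
  choose g hg using h1
  show (QuotientAddGroup.mk f : Gr I) = 0
  rw [mk_zero_iff]
  refine (countable_iUnion hg).mono fun i hi => ?_
  by_contra hcon
  apply hi
  have hd : ∀ n : ℕ, (p : ℤ) ^ n ∣ f i := by
    intro n
    have h2 : (p ^ n • g n - f) i = 0 := by
      by_contra h3
      exact hcon (mem_iUnion.2 ⟨n, h3⟩)
    refine ⟨g n i, ?_⟩
    have h4 : (p ^ n • g n) i = f i := sub_eq_zero.1 h2
    rw [← h4, Pi.smul_apply, nsmul_eq_mul]
    push_cast
    rfl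
  by_contra hne
  have hfin := (Int.finiteMultiplicity_iff (a := (p : ℤ)) (b := f i)).2 ⟨by simpa using hp.ne', hne⟩
  obtain ⟨n, hn⟩ := hfin
  exact hn (hd _)

/-- the projection onto a direct summand -/
lemma exists_proj {X : Type} [AddCommGroup X] (A B : AddSubgroup X) (h : IsCompl A B) :
    ∃ p : X →+ A, ∀ a : A, p a = a := by
  have h' : IsCompl (AddSubgroup.toIntSubmodule A) (AddSubgroup.toIntSubmodule B) :=
    (AddSubgroup.toIntSubmodule (M := X)).isCompl h
  set q := Submodule.projectionOnto _ _ h' with hq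
  refine ⟨{ toFun := fun x => ⟨(q x : X), (q x).2⟩, map_zero' := ?_, map_add' := ?_ }, ?_⟩
  · ext; simp
  · intro x y; ext; simp
  · intro a
    have h1 := Submodule.projectionOnto_apply_left h' ⟨(a : X), a.2⟩
    ext
    exact congrArg Subtype.val h1

/-- nonzero direct summands of `Gr I` contain a copy of `ℤ ^ I` -/
theorem copy_of_summand (I : Type) (hI : #I = ℵ₁) (A B : AddSubgroup (Gr I)) (h : IsCompl A B)
    (hA : A ≠ ⊥) : ∃ ψ : (I → ℤ) →+ A, Injective ψ := by
  obtain ⟨p, hp⟩ := exists_proj A B h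
  have hsep : ∀ q : ℕ, 1 < q → Sep q A := by
    intro q hq x hx
    apply Subtype.ext
    refine sep_Gr I q hq (x : Gr I) fun n => ?_
    obtain ⟨y, hy⟩ := hx n
    exact ⟨(y : Gr I), by rw [← hy]; rfl⟩
  have hp0 : p ≠ 0 := by
    intro h0
    apply hA
    rw [eq_bot_iff]
    intro a ha
    have h1 := hp ⟨a, ha⟩
    rw [h0] at h1
    exact (congrArg Subtype.val h1).symm
  obtain ⟨E, hE⟩ := copy_of_hom I hI A (cf_of_sep (hsep 2 (by norm_num)) (hsep 3 (by norm_num))) p hp0
  exact ⟨p.comp E, hE⟩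

/-- the sizes -/
theorem mk_summand (I : Type) (hI : #I = ℵ₁) (A B : AddSubgroup (Gr I)) (h : IsCompl A B)
    (hA : A ≠ ⊥) : #A = 2 ^ ℵ₁ := by
  obtain ⟨ψ, hψ⟩ := copy_of_summand I hI A B h hA
  apply le_antisymm
  · rw [← mk_fun hI]
    refine (mk_subtype_le _).trans ?_
    exact mk_le_of_surjective (QuotientAddGroup.mk_surjective (s := AddSubgroup.closure {f : I → ℤ | (support f).Countable}))
  · rw [← mk_fun hI]
    exact mk_le_of_injective hψ

end Pool.Agent.W_54b1e5_r17
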